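import Pool.Agent.T9h51.LR.Sets
import Pool.Agent.TH212.EH.A6

/-!
# Weighted level of distribution for families given by local conditions
-/

set_option autoImplicit false

namespace Pool.Agent.T9h51.LR

open Finset

/-- `E(x; d, a) = ψ(x; d, a) - x / φ(d)`, where `ψ(x; d, a)` is the sum of `Λ(n)` over the `n ≤ x` with
`n ≡ a (mod d)`. -/
noncomputable def E (x d : ℕ) (a : ℤ) : ℝ :=
  ∑ n ∈ (Icc 1 x).filter (fun n : ℕ => (n : ℤ) ≡ a [ZMOD d]), ArithmeticFunction.vonMangoldt n - (x : ℝ) / Nat.totient d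

/-- `τ(d)`: the number of the divisors of `d`. In particular `τ(d) ^ 2 ≥ 3 ^ ν(d)`, where `ν(d)` is the number of
the prime factors of `d`. -/
noncomputable def τ (d : ℕ) : ℝ := d.divisors.card

/-- `N / exp (K (log log N) ^ 2)` -/
noncomputable def level (K N : ℕ) : ℝ := N / Real.exp (K * Real.log (Real.log N) ^ 2)

/-- The sum of `λ(d) E(x(d); d, a)` over the `d ≤ Q` coprime to `a`. -/
noncomputable def weighted (lam : ℕ → ℝ) (x : ℕ → ℕ) (Q : ℕ) (a : ℤ) : ℝ :=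
  ∑ d ∈ (Icc 1 Q).filter (fun d : ℕ => Int.gcd a d = 1), lam d * E (x d) d a

open Classical in
/-- **The weighted level of distribution of the primes for a finite family of residues `a i`.**

(1) For arbitrary coefficients `λ(d)` with `|λ(d)| ≤ (τ(d) log N) ^ T` (e.g. `|λ(d)| ≤ 3 ^ ν(d)`, if `T = 2`) all but at
most `#ι / log ^ U N` of the `i` with `a = a i > 0` satisfy: the sum of `λ(d) E(x; d, a)` over the `d ≤ Q` coprime
to `a` is at most `N / log ^ U N` in absolute value, for ALL `Q ≤ N / exp (K (log log N) ^ 2)` and ALL `x ≤ B N`.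

(2) The same holds for the sums of `λ(d) E(x(d); d, a)`, if `x(d) ≤ B N` is an arbitrary function of the modulus.

(3) For arbitrary coefficients `|w(i)| ≤ log ^ T N` and arbitrary `x(d) ≤ B N`, the sum over ALL
`d ≤ N / exp (K (log log N) ^ 2)` of `τ(d) ^ T` times the ABSOLUTE VALUE of the sum of `w(i) E(x(d); d, a i)`, over the
`i` for which `a i` is positive and coprime to `d`, is at most `#ι N / log ^ U N`. -/
def LevelOfDistribution (K B T U N : ℕ) {ι : Type} [Fintype ι] (a : ι → ℤ) : Prop :=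
  (∀ lam : ℕ → ℝ, (∀ d, |lam d| ≤ (τ d * Real.log N) ^ T) →
    ((univ.filter (fun i : ι => 0 < a i ∧ ∃ Q : ℕ, (Q : ℝ) ≤ level K N ∧ ∃ x : ℕ, x ≤ B * N ∧
      N / Real.log N ^ U < |weighted lam (fun _ => x) Q (a i)|)).card : ℝ) ≤ Fintype.card ι / Real.log N ^ U ∧
    ∀ x : ℕ → ℕ, (∀ d, x d ≤ B * N) →
    ((univ.filter (fun i : ι => 0 < a i ∧ ∃ Q : ℕ, (Q : ℝ) ≤ level K N ∧
      N / Real.log N ^ U < |weighted lam x Q (a i)|)).card : ℝ) ≤ Fintype.card ι / Real.log N ^ U) ∧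
  (∀ w : ι → ℝ, (∀ i, |w i| ≤ Real.log N ^ T) → ∀ x : ℕ → ℕ, (∀ d, x d ≤ B * N) →
    ∑ d ∈ Icc 1 ⌊level K N⌋₊, τ d ^ T *
      |∑ i ∈ univ.filter (fun i : ι => 0 < a i ∧ Int.gcd (a i) d = 1), w i * E (x d) d (a i)| ≤
        Fintype.card ι * N / Real.log N ^ U)

lemma level_anti (K K' N : ℕ) (h : K ≤ K') : level K' N ≤ level K N :=
  Pool.Agent.TH212.EH.level_anti K K' N h

/-- the level may be lowered -/
lemma LevelOfDistribution.mono {K K' B T U N : ℕ} {ι : Type} [Fintype ι] {a : ι → ℤ}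
    (h : LevelOfDistribution K B T U N a) (hK : K ≤ K') : LevelOfDistribution K' B T U N a := by
  classical
  obtain ⟨h1, h2⟩ := h
  have hlev := level_anti K K' N hK
  have hlev0 : 0 ≤ level K' N := by unfold level; positivity
  refine ⟨fun lam hlam => ⟨?_, fun x hx => ?_⟩, fun w hw x hx => ?_⟩
  · refine le_trans (Nat.cast_le.2 (card_le_card ?_)) (h1 lam hlam).1
    intro i hi
    rw [mem_filter] at hi ⊢
    obtain ⟨-, hi1, Q, hQ, r⟩ := hi
    exact ⟨mem_univ _, hi1, Q, hQ.trans hlev, r⟩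
  · refine le_trans (Nat.cast_le.2 (card_le_card ?_)) ((h1 lam hlam).2 x hx)
    intro i hi
    rw [mem_filter] at hi ⊢
    obtain ⟨-, hi1, Q, hQ, r⟩ := hi
    exact ⟨mem_univ _, hi1, Q, hQ.trans hlev, r⟩
  · refine le_trans ?_ (h2 w hw x hx)
    apply sum_le_sum_of_subset_of_nonneg
    · exact Icc_subset_Icc le_rfl (Nat.floor_le_floor hlev)
    · intro d _ _
      unfold τ
      positivity

lemma gcd_iff (a : ℤ) (ha : 0 < a) (q : ℕ) : Int.gcd a q = 1 ↔ a.toNat.Coprime q := by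
  obtain ⟨b, rfl⟩ := Int.eq_ofNat_of_zero_le ha.le
  rw [Int.gcd_natCast_natCast, Int.toNat_natCast, Nat.coprime_iff_gcd_eq_one]

lemma E_eq (x q : ℕ) (a : ℤ) (ha : 0 < a) : E x q a =
    Pool.Agent.W93.LV.Fu (fun n => ArithmeticFunction.vonMangoldt n) x q a.toNat - (x : ℝ) / Nat.totient q := by
  obtain ⟨b, rfl⟩ := Int.eq_ofNat_of_zero_le ha.le
  unfold E Pool.Agent.W93.LV.Fu
  rw [Int.toNat_natCast]
  congr 1
  apply sum_congr _ (fun _ _ => rfl)
  ext n
  simp only [mem_filter, Int.natCast_modEq_iff]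

lemma weighted_eq (lam : ℕ → ℝ) (x : ℕ → ℕ) (Q : ℕ) (a : ℤ) (ha : 0 < a) :
    weighted lam x Q a = Pool.Agent.TH212.EH.WW lam x Q a.toNat := by
  unfold weighted Pool.Agent.TH212.EH.WW
  simp only [gcd_iff a ha, E_eq _ _ a ha]

lemma weighted_eq' (lam : ℕ → ℝ) (x : ℕ) (Q : ℕ) (a : ℤ) (ha : 0 < a) :
    weighted lam (fun _ => x) Q a = Pool.Agent.TH212.EH.W lam Q x a.toNat := by
  unfold weighted Pool.Agent.TH212.EH.W
  simp only [gcd_iff a ha, E_eq _ _ a ha]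

/-- small energy implies the level of distribution -/
theorem level_of_energy (k B B' C T U : ℕ) (hB : B ≤ B') : ∃ K N₀ : ℕ, ∀ N : ℕ, N₀ ≤ N → ∀ (ι : Type) [Fintype ι]
    (a : ι → ℤ), (∀ i, |a i| ≤ B' * N) → (En k a : ℝ) * N ≤ Real.log N ^ C * (Fintype.card ι : ℝ) ^ (2 * k) →
    LevelOfDistribution K B T U N a := by
  classical
  obtain ⟨K1, n1, h1⟩ := Pool.Agent.TH212.EH.few k B' C T U
  obtain ⟨K2, n2, h2⟩ := Pool.Agent.TH212.EH.dual k B' C T U
  refine ⟨max K1 K2, n1 + n2, fun N hN ι _ a ha hE => ?_⟩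
  have hBN : B * N ≤ B' * N := Nat.mul_le_mul_right _ hB
  have hlev1 : level (max K1 K2) N ≤ Pool.Agent.TH212.EH.level K1 N :=
    Pool.Agent.TH212.EH.level_anti K1 _ N (le_max_left _ _)
  have hlev2 : level (max K1 K2) N ≤ Pool.Agent.TH212.EH.level K2 N :=
    Pool.Agent.TH212.EH.level_anti K2 _ N (le_max_right _ _)
  have hlev0 : 0 ≤ level (max K1 K2) N := by unfold level; positivity
  constructor
  · intro lam hlam
    have hlam' : ∀ q, |lam q| ≤ Real.log N ^ T * (q.divisors.card : ℝ) ^ T := by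
      intro q
      refine (hlam q).trans (le_of_eq ?_)
      rw [mul_pow, mul_comm]
      rfl
    obtain ⟨k1, k2⟩ := h1 N (by omega) ι a ha hE lam hlam'
    constructor
    · refine le_trans (Nat.cast_le.2 (card_le_card ?_)) k1
      intro i hi
      rw [mem_filter] at hi ⊢
      obtain ⟨-, hi1, Q, hQ, x, hx, hbig⟩ := hi
      refine ⟨mem_univ _, hi1, Q, hQ.trans hlev1, x, hx.trans hBN, ?_⟩
      rw [weighted_eq' _ _ _ _ hi1] at hbig
      exact hbig
    · intro x hx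
      refine le_trans (Nat.cast_le.2 (card_le_card ?_)) (k2 x fun q => (hx q).trans hBN)
      intro i hi
      rw [mem_filter] at hi ⊢
      obtain ⟨-, hi1, Q, hQ, hbig⟩ := hi
      refine ⟨mem_univ _, hi1, Q, hQ.trans hlev1, ?_⟩
      rw [weighted_eq _ _ _ _ hi1] at hbig
      exact hbig
  · intro w hw x hx
    have h3 := h2 N (by omega) ι a ha hE w hw ⌊level (max K1 K2) N⌋₊ ((Nat.floor_le hlev0).trans hlev2) x
      fun q => (hx q).trans hBN
    refine le_trans (le_of_eq ?_) (h3.trans (le_of_eq ?_))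
    · apply sum_congr rfl
      intro d _
      unfold τ
      congr 2
      apply sum_congr
      · ext i
        simp only [mem_filter, mem_univ, true_and]
        constructor
        · rintro ⟨h4, h5⟩
          exact ⟨h4, (gcd_iff _ h4 d).1 h5⟩
        · rintro ⟨h4, h5⟩
          exact ⟨h4, (gcd_iff _ h4 d).2 h5⟩
      · intro i hi
        rw [mem_filter] at hi
        rw [E_eq _ _ _ hi.2.1]
    · rw [mul_comm (N : ℝ)]

lemma En_affine (k : ℕ) {ι : Type} (v : ι → ℤ) (c κ : ℤ) (hκ : κ ≠ 0) : En k (fun i => c + κ * v i) = En k v := by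
  unfold En
  have h1 : ∀ q : (Fin k → ι) × (Fin k → ι), (∑ j, (c + κ * v (q.1 j)) = ∑ j, (c + κ * v (q.2 j))) ↔
      (∑ j, v (q.1 j) = ∑ j, v (q.2 j)) := by
    intro q
    rw [sum_add_distrib, sum_add_distrib, ← mul_sum, ← mul_sum, add_right_inj]
    exact mul_right_inj' hκ
  simp only [h1]

lemma En_equiv (k : ℕ) {ι ι' : Type} (e : ι ≃ ι') (v : ι' → ℤ) : En k (fun i => v (e i)) = En k v := by
  unfold En
  apply Nat.card_congr
  refine Equiv.subtypeEquiv (Equiv.prodCongr (Equiv.arrowCongr (Equiv.refl _) e) (Equiv.arrowCongr (Equiv.refl _) e)) ?_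
  intro q
  rfl

/-- the energy of a local family -/
theorem local_energy (η : ℝ) (hη : 0 < η) (p₀ C : ℕ) : ∃ k N₀ : ℕ, 1 ≤ k ∧ ∀ N : ℕ, N₀ ≤ N → ∀ (J : Finset ℕ) (ι : ℕ → Type)
    [∀ m, Fintype (ι m)] (y : ∀ m, ι m → ZMod m), Local η p₀ J ι y → (N : ℝ) ≤ (∏ m ∈ J, m : ℕ) * Real.log N ^ C →
    ∀ v : (∀ m : J, ι m) → ℤ, (∀ i, ∀ m : J, ((v i : ℤ) : ZMod m) = y m (i m)) → ∀ c κ : ℤ, κ ≠ 0 →
    (En k (fun i => c + κ * v i) : ℝ) * N ≤ Real.log N ^ (C + 1) * (Fintype.card (∀ m : J, ι m) : ℝ) ^ (2 * k) := by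
  obtain ⟨k, hk, h⟩ := energy_le η hη
  obtain ⟨n0, h0⟩ := Filter.eventually_atTop.1
    ((Real.tendsto_log_atTop.comp tendsto_natCast_atTop_atTop).eventually_ge_atTop (3 * p₀.factorial : ℝ))
  refine ⟨k, n0, hk, fun N hN J ι _ y hL hJ v hv c κ hκ => ?_⟩
  rw [En_affine k v c κ hκ]
  have h1 := h p₀ J ι y hL v hv
  have h2 : (3 * p₀.factorial : ℝ) ≤ Real.log N := h0 N hN
  have h3 : (0 : ℝ) ≤ Real.log N := le_trans (by positivity) h2
  have h4 : (0 : ℝ) ≤ (Fintype.card (∀ m : J, ι m) : ℝ) ^ (2 * k) := by positivity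
  calc (En k v : ℝ) * N ≤ En k v * ((∏ m ∈ J, m : ℕ) * Real.log N ^ C) := mul_le_mul_of_nonneg_left hJ (Nat.cast_nonneg _)
    _ = (((∏ m ∈ J, m : ℕ) : ℝ) * En k v) * Real.log N ^ C := by ring
    _ ≤ (3 * p₀.factorial * (Fintype.card (∀ m : J, ι m) : ℝ) ^ (2 * k)) * Real.log N ^ C :=
        mul_le_mul_of_nonneg_right h1 (by positivity)
    _ ≤ (Real.log N * (Fintype.card (∀ m : J, ι m) : ℝ) ^ (2 * k)) * Real.log N ^ C := by
        apply mul_le_mul_of_nonneg_right _ (by positivity)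
        exact mul_le_mul_of_nonneg_right h2 h4
    _ = _ := by ring

/-- the bound for the values -/
lemma val_le (B N : ℕ) (c κ v : ℤ) (hc : |c| ≤ B * N) (hv : |v| ≤ B * N) :
    |c + κ * v| ≤ ((B + κ.natAbs * B : ℕ) : ℤ) * N := by
  have h1 := abs_add_le c (κ * v)
  rw [abs_mul] at h1
  have h2 : |κ| * |v| ≤ |κ| * (B * N) := mul_le_mul_of_nonneg_left hv (abs_nonneg _)
  push_cast
  nlinarith

/-- the sets of residues modulo the prime `l` which are admitted: (i) Fourier coefficients at most `l ^ (-η)` times the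
number of the elements; (ii) a coset of a subgroup of the multiplicative group with at least `l ^ (1 / 2 + η)` elements;
(iii) at most `l ^ (1 - 2 η)` residues are omitted -/
def Regular (η : ℝ) (l : ℕ) (A : Finset (ZMod l)) : Prop :=
  Flat l ((l : ℝ) ^ (-η)) (fun x : {x // x ∈ A} => x.1) ∨
  (∃ (H : Subgroup (ZMod l)ˣ) (c : (ZMod l)ˣ), (∀ x, x ∈ A ↔ ∃ u ∈ H, x = (c * u : (ZMod l)ˣ)) ∧
    (l : ℝ) ^ (1 / 2 + η) ≤ A.card) ∨
  (l : ℝ) - (l : ℝ) ^ (1 - 2 * η) ≤ A.card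

lemma regular_flat (η : ℝ) (hη : 0 < η) : ∃ p₀ : ℕ, ∀ l : ℕ, p₀ < l → l.Prime → ∀ A : Finset (ZMod l),
    Regular η l A → Flat l ((l : ℝ) ^ (-η)) (fun x : {x // x ∈ A} => x.1) := by
  classical
  have hbig : ∃ p₀ : ℕ, ∀ l : ℕ, p₀ < l → (l : ℝ) ^ (-η) ≤ 1 / 2 := by
    have h1 := (tendsto_rpow_neg_atTop hη).comp (tendsto_natCast_atTop_atTop (R := ℝ))
    obtain ⟨n, hn⟩ := Filter.eventually_atTop.1 (h1.eventually_le_const (by norm_num : (0 : ℝ) < 1 / 2))
    exact ⟨n, fun l hl => hn l hl.le⟩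
  obtain ⟨p₀, hp⟩ := hbig
  refine ⟨p₀, fun l hl hlp A hA => ?_⟩
  have : Fact l.Prime := ⟨hlp⟩
  have hl0 : (0 : ℝ) < l := by exact_mod_cast hlp.pos
  rcases hA with h | ⟨H, c, h1, h2⟩ | h
  · exact h
  · refine flat_coset l H c A h1 _ ?_
    calc √(l : ℝ) = (l : ℝ) ^ (-η) * (l : ℝ) ^ (1 / 2 + η) := by
          rw [← Real.rpow_add hl0, Real.sqrt_eq_rpow]
          congr 1
          ring
      _ ≤ _ := mul_le_mul_of_nonneg_left h2 (by positivity)
  · apply flat_omit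
    have h1 : ((univ \ A : Finset (ZMod l)).card : ℝ) = l - A.card := by
      rw [card_sdiff_of_subset (subset_univ A), card_univ, ZMod.card, Nat.cast_sub]
      have := card_le_univ A
      rwa [ZMod.card] at this
    have h2 : (l : ℝ) ^ (-η) ≤ 1 / 2 := hp l hl
    have h3 : (0 : ℝ) < (l : ℝ) ^ (-η) := by positivity
    have h4 : (l : ℝ) ^ (1 - 2 * η) = l * ((l : ℝ) ^ (-η) * (l : ℝ) ^ (-η)) := by
      rw [← Real.rpow_add hl0]
      nth_rw 2 [← Real.rpow_one (l : ℝ)]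
      rw [← Real.rpow_add hl0]
      congr 1
      ring
    rw [h1]
    obtain ⟨z, hz⟩ : ∃ z, z = (l : ℝ) ^ (-η) := ⟨_, rfl⟩
    rw [h4, ← hz] at h
    rw [← hz] at h2 h3 ⊢
    obtain ⟨x, hx⟩ : ∃ x : ℝ, x = A.card := ⟨_, rfl⟩
    rw [← hx] at h ⊢
    have h5 : (l : ℝ) - x ≤ l * (z * z) := by linarith
    have h6 : l * (1 - z * z) ≤ x := by linarith
    have h7 : z * (l * (1 - z * z)) ≤ z * x := mul_le_mul_of_nonneg_left h6 h3.le
    have h8 : l * (z * z) ≤ z * (l * (1 - z * z)) := by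
      have : 0 ≤ l * z * (1 - z * z - z) := by
        apply mul_nonneg (by positivity)
        nlinarith
      nlinarith
    linarith

/-- the energy of a set given by local conditions -/
theorem set_energy (η : ℝ) (hη : 0 < η) (p₀ C : ℕ) : ∃ k N₀ : ℕ, 1 ≤ k ∧ ∀ N : ℕ, N₀ ≤ N → ∀ q : ℕ, Squarefree q →
    (N : ℝ) ≤ q * Real.log N ^ C → ∀ A : ∀ l : ℕ, Finset (ZMod l),
    (∀ l ∈ q.primeFactors, p₀ < l → Regular η l (A l)) → ∀ c κ : ℤ, κ ≠ 0 →
    (En k (fun v : {v // v ∈ S q A} => c + κ * ((v.1 : ℕ) : ℤ)) : ℝ) * N ≤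
      Real.log N ^ (C + 1) * (Fintype.card {v // v ∈ S q A} : ℝ) ^ (2 * k) := by
  obtain ⟨p₁, hp₁⟩ := regular_flat η hη
  obtain ⟨k, N₀, hk, h⟩ := local_energy η hη (max p₀ p₁) C
  refine ⟨k, N₀, hk, fun N hN q hq hqN A hA c κ hκ => ?_⟩
  obtain ⟨e, he⟩ := param q hq A
  have h1 := h N hN q.primeFactors (fun l => {x // x ∈ A l}) (fun l x => x.1) ⟨fun l hl =>
    (Nat.prime_of_mem_primeFactors hl).two_le, fun l hl hlp => hp₁ l (lt_of_le_of_lt (le_max_right _ _) hlp)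
      (Nat.prime_of_mem_primeFactors hl) _ (hA l hl (lt_of_le_of_lt (le_max_left _ _) hlp))⟩
    (by rw [Nat.prod_primeFactors_of_squarefree hq]; exact hqN) (fun i => (((e i).1 : ℕ) : ℤ))
    (fun i l => by rw [← he i l]; push_cast; rfl) c κ hκ
  have h2 := En_equiv k e (fun v : {v // v ∈ S q A} => c + κ * ((v.1 : ℕ) : ℤ))
  rw [← h2, ← Fintype.card_congr e]
  exact h1

end Pool.Agent.T9h51.LR
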