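import Mathlib

/-!
# Additive energy of families given by local conditions

A family of integers `v i` whose residues modulo the members `m` of a finite set `J` are independent of each other
(`i` is a vector of indices `i m`, and `v i ≡ y m (i m)` modulo `m`) has nearly minimal additive energy, if the Fourier
coefficients of the families `y m` are at most `m ^ (-η)`.
-/

set_option autoImplicit false

namespace Pool.Agent.T9h51.LR

open Finset

/-- the number of the solutions of `∑ v (a j) = ∑ v (b j)` -/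
noncomputable def En (h : ℕ) {ι G : Type} [AddCommGroup G] (v : ι → G) : ℕ :=
  Nat.card {q : (Fin h → ι) × (Fin h → ι) // ∑ j, v (q.1 j) = ∑ j, v (q.2 j)}

/-- The Fourier coefficients of the residues `y i` modulo `m` at the nonzero frequencies are at most `δ` times the number
of the residues: `|∑ i, exp (2 π i h y_i / m)| ≤ δ #ι` for all integers `h` which are not divisible by `m`. -/
def Flat {ι : Type} [Fintype ι] (m : ℕ) (δ : ℝ) (y : ι → ZMod m) : Prop :=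
  ∀ h : ℤ, ¬ (m : ℤ) ∣ h →
    ‖∑ i, Complex.exp (2 * Real.pi * Complex.I * (h * ((y i).val : ℕ)) / m)‖ ≤ δ * Fintype.card ι

lemma Flat.char {ι : Type} [Fintype ι] {m : ℕ} [NeZero m] {δ : ℝ} {y : ι → ZMod m} (hy : Flat m δ y) (h : ZMod m)
    (hh : h ≠ 0) : ‖∑ i, (ZMod.stdAddChar (h * y i) : ℂ)‖ ≤ δ * Fintype.card ι := by
  have h1 := hy (h.val : ℤ) (by
    rw [← ZMod.intCast_zmod_eq_zero_iff_dvd, Int.cast_natCast, ZMod.natCast_zmod_val]
    exact hh)
  have h2 : ∀ i, (ZMod.stdAddChar (h * y i) : ℂ) =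
      Complex.exp (2 * Real.pi * Complex.I * (((h.val : ℤ) : ℂ) * ((y i).val : ℕ)) / m) := by
    intro i
    have e1 : h * y i = (((h.val * (y i).val : ℕ) : ℤ) : ZMod m) := by
      push_cast
      rw [ZMod.natCast_zmod_val, ZMod.natCast_zmod_val]
    rw [e1, ZMod.stdAddChar_coe]
    congr 1
    push_cast
    ring
  simp only [h2]
  exact h1

lemma char_sum {A : Type} [AddCommMonoid A] (ψ : AddChar A ℂ) {κ : Type} (s : Finset κ) (f : κ → A) :
    ψ (∑ i ∈ s, f i) = ∏ i ∈ s, ψ (f i) := by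
  classical
  induction s using Finset.induction_on with
  | empty => simp
  | insert a s ha ih => rw [sum_insert ha, prod_insert ha, AddChar.map_add_eq_mul, ih]

lemma sum_char (m : ℕ) [NeZero m] (t : ZMod m) :
    ∑ h : ZMod m, (ZMod.stdAddChar (h * t) : ℂ) = if t = 0 then (m : ℂ) else 0 := by
  have h1 := AddChar.sum_mulShift (R := ZMod m) (R' := ℂ) t (ZMod.isPrimitive_stdAddChar m)
  rw [h1, ZMod.card]
  split_ifs <;> simp

lemma En_char (k : ℕ) {ι : Type} [Fintype ι] (m : ℕ) [NeZero m] (y : ι → ZMod m) :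
    (m : ℝ) * En k y = ∑ h : ZMod m, ‖∑ i, (ZMod.stdAddChar (h * y i) : ℂ)‖ ^ (2 * k) := by
  classical
  have h0 : (En k y : ℂ) = ∑ q : (Fin k → ι) × (Fin k → ι), if ∑ j, y (q.1 j) - ∑ j, y (q.2 j) = 0 then (1 : ℂ) else 0 := by
    unfold En
    rw [Nat.card_eq_fintype_card, Fintype.card_subtype, ← Finset.sum_boole]
    apply sum_congr rfl
    intro q _
    simp only [sub_eq_zero]
  have h1 : ∀ h : ZMod m, ((‖∑ i, (ZMod.stdAddChar (h * y i) : ℂ)‖ ^ (2 * k) : ℝ) : ℂ) =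
      ∑ q : (Fin k → ι) × (Fin k → ι), (ZMod.stdAddChar (h * (∑ j, y (q.1 j) - ∑ j, y (q.2 j))) : ℂ) := by
    intro h
    have e1 : ((‖∑ i, (ZMod.stdAddChar (h * y i) : ℂ)‖ ^ (2 * k) : ℝ) : ℂ) =
        (∑ i, (ZMod.stdAddChar (h * y i) : ℂ)) ^ k * (∑ i, (ZMod.stdAddChar (-(h * y i)) : ℂ)) ^ k := by
      have e2 : (∑ i, (ZMod.stdAddChar (-(h * y i)) : ℂ)) = (starRingEnd ℂ) (∑ i, (ZMod.stdAddChar (h * y i) : ℂ)) := by
        rw [map_sum]
        exact sum_congr rfl fun i _ => AddChar.map_neg_eq_conj _ _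
      rw [e2, ← mul_pow, Complex.mul_conj, Complex.normSq_eq_norm_sq]
      push_cast
      rw [pow_mul]
    rw [e1, Fintype.sum_pow, Fintype.sum_pow, Fintype.sum_prod_type, sum_mul_sum]
    refine sum_congr rfl fun a _ => sum_congr rfl fun b _ => ?_
    rw [mul_sub, sub_eq_add_neg, AddChar.map_add_eq_mul, mul_sum, mul_sum, ← sum_neg_distrib]
    congr 1
    · exact (char_sum _ _ _).symm
    · exact (char_sum _ _ _).symm
  have h2 : ((m : ℝ) * En k y : ℝ) = ((∑ h : ZMod m, ‖∑ i, (ZMod.stdAddChar (h * y i) : ℂ)‖ ^ (2 * k) : ℝ) : ℂ) := by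
    rw [Complex.ofReal_sum]
    simp only [h1]
    rw [sum_comm]
    simp only [sum_char]
    push_cast
    rw [h0, mul_sum]
    apply sum_congr rfl
    intro q _
    split_ifs <;> simp
  exact_mod_cast h2

/-- the energy modulo one integer -/
lemma En_le_flat (k : ℕ) {ι : Type} [Fintype ι] (m : ℕ) [NeZero m] (δ : ℝ) (hδ : 0 ≤ δ) (y : ι → ZMod m)
    (hy : Flat m δ y) : (m : ℝ) * En k y ≤ (Fintype.card ι : ℝ) ^ (2 * k) * (1 + m * δ ^ (2 * k)) := by
  classical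
  rw [En_char, ← Finset.add_sum_erase _ _ (mem_univ (0 : ZMod m))]
  have h1 : ‖∑ i, (ZMod.stdAddChar ((0 : ZMod m) * y i) : ℂ)‖ ^ (2 * k) = (Fintype.card ι : ℝ) ^ (2 * k) := by
    simp
  have h2 : ∑ h ∈ univ.erase (0 : ZMod m), ‖∑ i, (ZMod.stdAddChar (h * y i) : ℂ)‖ ^ (2 * k) ≤
      ∑ _h ∈ univ.erase (0 : ZMod m), (δ * Fintype.card ι) ^ (2 * k) :=
    sum_le_sum fun h hh => pow_le_pow_left₀ (norm_nonneg _) (hy.char h (ne_of_mem_erase hh)) _
  have h3 : ((univ.erase (0 : ZMod m)).card : ℝ) ≤ m := by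
    have : (univ.erase (0 : ZMod m)).card ≤ (univ : Finset (ZMod m)).card := card_le_card (erase_subset _ _)
    rw [card_univ, ZMod.card] at this
    exact_mod_cast this
  rw [sum_const, nsmul_eq_mul] at h2
  rw [h1]
  have h4 : (0 : ℝ) ≤ (δ * Fintype.card ι) ^ (2 * k) := by positivity
  calc _ ≤ (Fintype.card ι : ℝ) ^ (2 * k) + m * (δ * Fintype.card ι) ^ (2 * k) := by
        have := mul_le_mul_of_nonneg_right h3 h4
        linarith
    _ = _ := by rw [mul_pow]; ring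

/-- the trivial bound -/
lemma En_le_triv (k : ℕ) {ι G : Type} [Fintype ι] [AddCommGroup G] (v : ι → G) :
    En k v ≤ Fintype.card ι ^ (2 * k) := by
  classical
  unfold En
  rw [Nat.card_eq_fintype_card]
  refine (Fintype.card_subtype_le _).trans ?_
  rw [Fintype.card_prod, Fintype.card_fun, Fintype.card_fin, two_mul, pow_add]

/-- the energy of a family given by independent residues -/
lemma En_le_prod (k : ℕ) (J : Finset ℕ) (ι : ℕ → Type) [∀ m, Fintype (ι m)] (y : ∀ m, ι m → ZMod m)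
    (v : (∀ m : J, ι m) → ℤ) (hv : ∀ i, ∀ m : J, ((v i : ℤ) : ZMod m) = y m (i m)) :
    En k v ≤ ∏ m : J, En k (y m) := by
  classical
  unfold En
  rw [← Nat.card_pi]
  have hfin : ∀ m : J, Finite {q : (Fin k → ι m) × (Fin k → ι m) // ∑ j, y m (q.1 j) = ∑ j, y m (q.2 j)} := fun m =>
    inferInstance
  refine Nat.card_le_card_of_injective
    (fun q (m : J) => (⟨(fun j => q.1.1 j m, fun j => q.1.2 j m), ?_⟩ :
      {q : (Fin k → ι m) × (Fin k → ι m) // ∑ j, y m (q.1 j) = ∑ j, y m (q.2 j)})) ?_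
  · have h1 := congrArg (fun z : ℤ => (z : ZMod m)) q.2
    simp only [Int.cast_sum, hv] at h1
    exact h1
  · intro q q' h
    apply Subtype.ext
    apply Prod.ext
    · funext j m
      have h1 := congrArg Subtype.val (congrFun h m)
      exact congrFun (congrArg Prod.fst h1) j
    · funext j m
      have h1 := congrArg Subtype.val (congrFun h m)
      exact congrFun (congrArg Prod.snd h1) j

/-- A family of residues `y m` for every member `m` of `J`: all `m ∈ J` are at least `2`, and for `m > p₀` the Fourier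
coefficients of `y m` are at most `m ^ (-η)`. For the small `m` there is no condition. -/
structure Local (η : ℝ) (p₀ : ℕ) (J : Finset ℕ) (ι : ℕ → Type) [∀ m, Fintype (ι m)] (y : ∀ m, ι m → ZMod m) : Prop where
  two : ∀ m ∈ J, 2 ≤ m
  flat : ∀ m ∈ J, p₀ < m → Flat m ((m : ℝ) ^ (-η)) (y m)

lemma prod_small (p₀ : ℕ) (J : Finset ℕ) (hJ : ∀ m ∈ J, 1 ≤ m) :
    ∏ m ∈ J.filter (fun m => m ≤ p₀), m ≤ p₀.factorial := by
  have h1 : J.filter (fun m => m ≤ p₀) ⊆ Icc 1 p₀ := by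
    intro m hm
    rw [mem_filter] at hm
    exact mem_Icc.2 ⟨hJ m hm.1, hm.2⟩
  calc ∏ m ∈ J.filter (fun m => m ≤ p₀), m ≤ ∏ m ∈ Icc 1 p₀, m :=
        prod_le_prod_of_subset_of_one_le' h1 fun m hm _ => (mem_Icc.1 hm).1
    _ = p₀.factorial := by
        rw [← Finset.prod_range_add_one_eq_factorial, Finset.range_eq_Ico, Finset.prod_Ico_add' (fun m => m) 0 p₀ 1]
        rfl

lemma prod_large (J : Finset ℕ) (hJ : ∀ m ∈ J, 2 ≤ m) :
    ∏ m ∈ J, (1 + 1 / (m : ℝ) ^ 2) ≤ 3 := by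
  have h1 : ∏ m ∈ J, (1 + 1 / (m : ℝ) ^ 2) ≤ Real.exp (∑ m ∈ J, 1 / (m : ℝ) ^ 2) := by
    rw [Real.exp_sum]
    refine prod_le_prod (fun m _ => by positivity) fun m _ => ?_
    have := Real.add_one_le_exp (1 / (m : ℝ) ^ 2)
    linarith
  have h2 : ∀ n : ℕ, ∑ m ∈ Icc 2 (n + 1), 1 / (m : ℝ) ^ 2 ≤ 1 - 1 / ((n : ℝ) + 1) := by
    intro n
    induction n with
    | zero => simp
    | succ n ih =>
      rw [Finset.sum_Icc_succ_top (by omega)]
      refine (add_le_add_left ih _).trans ?_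
      push_cast
      have h3 : (0 : ℝ) ≤ n := Nat.cast_nonneg n
      rw [← sub_nonneg]
      have h4 : 1 - 1 / ((n : ℝ) + 1 + 1) - (1 - 1 / ((n : ℝ) + 1) + 1 / ((n : ℝ) + 1 + 1) ^ 2) =
          1 / (((n : ℝ) + 1) * ((n : ℝ) + 1 + 1) ^ 2) := by
        field_simp
        ring
      rw [h4]
      positivity
  have h3 : ∑ m ∈ J, 1 / (m : ℝ) ^ 2 ≤ 1 := by
    obtain ⟨n, hn⟩ : ∃ n, ∀ m ∈ J, m ≤ n + 1 := ⟨J.sup id, fun m hm => (Finset.le_sup (f := id) hm).trans (by omega)⟩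
    have h4 : J ⊆ Icc 2 (n + 1) := fun m hm => mem_Icc.2 ⟨hJ m hm, hn m hm⟩
    refine (sum_le_sum_of_subset_of_nonneg h4 fun m _ _ => by positivity).trans ((h2 n).trans ?_)
    have : (0 : ℝ) ≤ 1 / ((n : ℝ) + 1) := by positivity
    linarith
  calc _ ≤ Real.exp (∑ m ∈ J, 1 / (m : ℝ) ^ 2) := h1
    _ ≤ Real.exp 1 := Real.exp_le_exp.2 h3
    _ ≤ 3 := by linarith [Real.exp_one_lt_d9]

/-- the energy of a family with independent residues -/
theorem energy_le (η : ℝ) (hη : 0 < η) : ∃ k : ℕ, 1 ≤ k ∧ ∀ (p₀ : ℕ) (J : Finset ℕ) (ι : ℕ → Type) [∀ m, Fintype (ι m)]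
    (y : ∀ m, ι m → ZMod m), Local η p₀ J ι y → ∀ v : (∀ m : J, ι m) → ℤ,
    (∀ i, ∀ m : J, ((v i : ℤ) : ZMod m) = y m (i m)) →
    ((∏ m ∈ J, m : ℕ) : ℝ) * En k v ≤ 3 * p₀.factorial * (Fintype.card (∀ m : J, ι m) : ℝ) ^ (2 * k) := by
  obtain ⟨k, hk⟩ := exists_nat_ge (3 / (2 * η))
  refine ⟨k + 1, by omega, fun p₀ J ι _ y hL v hv => ?_⟩
  have hk2 : (3 : ℝ) ≤ 2 * (k + 1 : ℕ) * η := by
    rw [div_le_iff₀ (by positivity)] at hk
    push_cast
    nlinarith
  have h1 := En_le_prod (k + 1) J ι y v hv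
  have h2 : ∀ m : J, ((m : ℕ) : ℝ) * En (k + 1) (y m) ≤ (Fintype.card (ι m) : ℝ) ^ (2 * (k + 1)) *
      ((if (m : ℕ) ≤ p₀ then ((m : ℕ) : ℝ) else 1) * (1 + 1 / ((m : ℕ) : ℝ) ^ 2)) := by
    intro m
    have hm2 := hL.two m m.2
    have hm0 : (0 : ℝ) < (m : ℕ) := by exact_mod_cast (by omega : 0 < (m : ℕ))
    have hm1 : (1 : ℝ) ≤ (m : ℕ) := by exact_mod_cast (by omega : 1 ≤ (m : ℕ))
    have : NeZero (m : ℕ) := ⟨by omega⟩
    split_ifs with hp
    · have h3 : (En (k + 1) (y m) : ℝ) ≤ (Fintype.card (ι m) : ℝ) ^ (2 * (k + 1)) := by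
        exact_mod_cast En_le_triv (k + 1) (y m)
      have h4 : (0 : ℝ) ≤ 1 / ((m : ℕ) : ℝ) ^ 2 := by positivity
      calc ((m : ℕ) : ℝ) * En (k + 1) (y m) ≤ (m : ℕ) * (Fintype.card (ι m) : ℝ) ^ (2 * (k + 1)) :=
            mul_le_mul_of_nonneg_left h3 hm0.le
        _ = (Fintype.card (ι m) : ℝ) ^ (2 * (k + 1)) * (((m : ℕ) : ℝ) * 1) := by ring
        _ ≤ _ := by
            apply mul_le_mul_of_nonneg_left _ (by positivity)
            apply mul_le_mul_of_nonneg_left _ hm0.le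
            linarith
    · have h3 := En_le_flat (k + 1) (m : ℕ) _ (by positivity) (y m) (hL.flat m m.2 (by omega))
      refine h3.trans ?_
      rw [one_mul]
      apply mul_le_mul_of_nonneg_left _ (by positivity)
      apply add_le_add le_rfl
      rw [← Real.rpow_natCast, ← Real.rpow_mul hm0.le]
      calc ((m : ℕ) : ℝ) * ((m : ℕ) : ℝ) ^ (-η * ((2 * (k + 1) : ℕ) : ℝ)) =
            ((m : ℕ) : ℝ) ^ (1 + -η * ((2 * (k + 1) : ℕ) : ℝ)) := by
            rw [Real.rpow_add hm0, Real.rpow_one]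
        _ ≤ ((m : ℕ) : ℝ) ^ (-2 : ℝ) := by
            apply Real.rpow_le_rpow_of_exponent_le hm1
            push_cast at hk2 ⊢
            nlinarith
        _ = 1 / ((m : ℕ) : ℝ) ^ 2 := by
            rw [Real.rpow_neg hm0.le, one_div]
            norm_cast
  have h3 : ((∏ m ∈ J, m : ℕ) : ℝ) * En (k + 1) v ≤ ∏ m : J, (((m : ℕ) : ℝ) * En (k + 1) (y m)) := by
    rw [prod_mul_distrib]
    have e1 : ((∏ m ∈ J, m : ℕ) : ℝ) = ∏ m : J, ((m : ℕ) : ℝ) := by
      rw [Nat.cast_prod, ← Finset.prod_coe_sort]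
    rw [e1]
    apply mul_le_mul_of_nonneg_left _ (prod_nonneg fun m _ => Nat.cast_nonneg _)
    exact_mod_cast h1
  refine h3.trans ?_
  refine (prod_le_prod (fun m _ => by positivity) fun m _ => h2 m).trans ?_
  rw [prod_mul_distrib, prod_mul_distrib]
  have e2 : ∏ m : J, (Fintype.card (ι m) : ℝ) ^ (2 * (k + 1)) = (Fintype.card (∀ m : J, ι m) : ℝ) ^ (2 * (k + 1)) := by
    rw [prod_pow, Fintype.card_pi]
    push_cast
    rfl
  have e3 : ∏ m : J, (if (m : ℕ) ≤ p₀ then ((m : ℕ) : ℝ) else 1) ≤ p₀.factorial := by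
    have h5 := prod_small p₀ J fun m hm => (by have := hL.two m hm; omega : 1 ≤ m)
    have h6 : ∏ m : J, (if (m : ℕ) ≤ p₀ then ((m : ℕ) : ℝ) else 1) = ∏ m ∈ J, (if m ≤ p₀ then (m : ℝ) else 1) :=
      Finset.prod_coe_sort J (fun m : ℕ => if m ≤ p₀ then (m : ℝ) else 1)
    rw [h6, ← prod_filter, ← Nat.cast_prod]
    exact_mod_cast h5
  have e4 : ∏ m : J, (1 + 1 / ((m : ℕ) : ℝ) ^ 2) ≤ 3 := by
    rw [Finset.prod_coe_sort J (fun m : ℕ => 1 + 1 / (m : ℝ) ^ 2)]
    exact prod_large J hL.two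
  rw [e2]
  have e5 : (0 : ℝ) ≤ ∏ m : J, (1 + 1 / ((m : ℕ) : ℝ) ^ 2) := prod_nonneg fun m _ => by positivity
  calc _ ≤ (Fintype.card (∀ m : J, ι m) : ℝ) ^ (2 * (k + 1)) * (p₀.factorial * 3) := by
        apply mul_le_mul_of_nonneg_left _ (by positivity)
        exact mul_le_mul e3 e4 e5 (by positivity)
    _ = _ := by ring

end Pool.Agent.T9h51.LR
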