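import Pool.Agent.T9h51.LR.EHw

/-!
# The quadratic residues modulo all prime factors of an integer
-/

set_option autoImplicit false

namespace Pool.Agent.T9h51.LR

open Finset

open Classical in
/-- the integers `0 ≤ v < q` which are quadratic residues (prime to `l`) modulo all the odd prime factors `l` of `q` -/
noncomputable def QR (q : ℕ) : Finset ℕ :=
  (range q).filter (fun v : ℕ => ∀ l ∈ q.primeFactors, l ≠ 2 → ((v : ZMod l) ≠ 0 ∧ IsSquare (v : ZMod l)))

open Classical in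
/-- the corresponding sets of residues -/
noncomputable def sqs (l : ℕ) : Finset (ZMod l) :=
  if h : l = 0 then ∅ else
    haveI : NeZero l := ⟨h⟩
    univ.filter (fun x : ZMod l => l ≠ 2 → (x ≠ 0 ∧ IsSquare x))

lemma mem_sqs (l : ℕ) (hl : l ≠ 0) (x : ZMod l) : x ∈ sqs l ↔ (l ≠ 2 → (x ≠ 0 ∧ IsSquare x)) := by
  classical
  have : NeZero l := ⟨hl⟩
  unfold sqs
  rw [dif_neg hl, mem_filter]
  simp only [mem_univ, true_and]

lemma QR_eq (q : ℕ) : QR q = S q sqs := by
  classical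
  unfold QR S
  apply filter_congr
  intro v _
  constructor
  · intro h l hl
    exact (mem_sqs l (Nat.prime_of_mem_primeFactors hl).ne_zero _).2 (h l hl)
  · intro h l hl
    exact (mem_sqs l (Nat.prime_of_mem_primeFactors hl).ne_zero _).1 (h l hl)

lemma card_sqs (l : ℕ) (hl : l.Prime) (hl2 : l ≠ 2) : l - 1 ≤ 2 * (sqs l).card := by
  classical
  have : Fact l.Prime := ⟨hl⟩
  have h1 : Fintype.card (ZMod l)ˣ = l - 1 := by rw [ZMod.card_units_eq_totient, Nat.totient_prime hl]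
  rw [← h1, ← card_univ]
  refine card_le_mul_card_image_of_maps_to (f := fun u : (ZMod l)ˣ => (u : ZMod l) * u) (t := sqs l) ?_ 2 ?_
  · intro u _
    rw [mem_sqs l hl.ne_zero]
    intro _
    exact ⟨mul_ne_zero u.ne_zero u.ne_zero, ⟨u, rfl⟩⟩
  · intro x _
    rcases (univ.filter (fun u : (ZMod l)ˣ => (u : ZMod l) * u = x)).eq_empty_or_nonempty with h | ⟨u, hu⟩
    · rw [h]
      simp
    · rw [mem_filter] at hu
      have h2 : univ.filter (fun w : (ZMod l)ˣ => (w : ZMod l) * w = x) ⊆ {u, -u} := by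
        intro w hw
        rw [mem_filter] at hw
        rw [mem_insert, mem_singleton]
        have h3 : (w : ZMod l) * w = u * u := by rw [hw.2, hu.2]
        rcases mul_self_eq_mul_self_iff.1 h3 with h4 | h4
        · left
          exact Units.ext h4
        · right
          apply Units.ext
          rw [h4, Units.val_neg]
      exact (card_le_card h2).trans card_le_two

lemma sqs_regular (l : ℕ) (hl : l.Prime) (hbig : 256 < l) : Regular (1 / 4) l (sqs l) := by
  classical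
  have : Fact l.Prime := ⟨hl⟩
  right
  left
  refine ⟨(powMonoidHom 2 : (ZMod l)ˣ →* (ZMod l)ˣ).range, 1, fun x => ?_, ?_⟩
  · rw [mem_sqs l hl.ne_zero]
    constructor
    · intro h
      obtain ⟨h0, r, hr⟩ := h (by omega)
      have hr0 : r ≠ 0 := by
        rintro rfl
        rw [mul_zero] at hr
        exact h0 hr
      refine ⟨(Units.mk0 r hr0) ^ 2, ⟨Units.mk0 r hr0, rfl⟩, ?_⟩
      rw [one_mul, Units.val_pow_eq_pow_val, Units.val_mk0, pow_two]
      exact hr
    · rintro ⟨u, ⟨w, rfl⟩, rfl⟩ _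
      refine ⟨Units.ne_zero _, ⟨(w : ZMod l), ?_⟩⟩
      rw [one_mul, powMonoidHom_apply, Units.val_pow_eq_pow_val, pow_two]
  · have h1 := card_sqs l hl (by omega)
    have h2 : (l : ℝ) ≤ 2 * (sqs l).card + 1 := by exact_mod_cast (by omega : l ≤ 2 * (sqs l).card + 1)
    have hl0 : (256 : ℝ) ≤ l := by exact_mod_cast hbig.le
    have h3 : (1 / 2 + 1 / 4 : ℝ) = 3 / 4 := by norm_num
    rw [h3]
    have h4 : (4 : ℝ) ≤ (l : ℝ) ^ (1 / 4 : ℝ) := by
      have h5 : ((256 : ℝ)) ^ (1 / 4 : ℝ) = 4 := by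
        rw [show (256 : ℝ) = 4 ^ (4 : ℝ) by norm_num, ← Real.rpow_mul (by norm_num : (0 : ℝ) ≤ 4)]
        norm_num
      calc (4 : ℝ) = (256 : ℝ) ^ (1 / 4 : ℝ) := h5.symm
        _ ≤ (l : ℝ) ^ (1 / 4 : ℝ) := Real.rpow_le_rpow (by norm_num) hl0 (by norm_num)
    have h6 : (l : ℝ) ^ (3 / 4 : ℝ) * (l : ℝ) ^ (1 / 4 : ℝ) = l := by
      have hl1 : (0 : ℝ) < l := by linarith
      rw [← Real.rpow_add hl1]
      norm_num
    have h7 : (0 : ℝ) ≤ (l : ℝ) ^ (3 / 4 : ℝ) := by positivity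
    nlinarith

end Pool.Agent.T9h51.LR
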