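import Pool.Agent.T9h51.LR.Energy

/-!
# Sets given by local conditions

`S q A`: the integers `0 ≤ v < q` (`q` squarefree) whose residue modulo every prime factor `ℓ` of `q` lies in `A ℓ`. The
parametrization by the Chinese remainder theorem; sets of residues modulo a prime with small Fourier coefficients.
-/

set_option autoImplicit false

namespace Pool.Agent.T9h51.LR

open Finset

open Classical in
/-- the integers `0 ≤ v < q` whose residue modulo every prime factor `ℓ` of `q` lies in `A ℓ` -/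
noncomputable def S (q : ℕ) (A : ∀ l : ℕ, Finset (ZMod l)) : Finset ℕ :=
  (range q).filter (fun v : ℕ => ∀ l ∈ q.primeFactors, (v : ZMod l) ∈ A l)

theorem param (q : ℕ) (hq : Squarefree q) (A : ∀ l : ℕ, Finset (ZMod l)) :
    ∃ e : (∀ l : q.primeFactors, {x // x ∈ A l}) ≃ {v // v ∈ S q A},
      ∀ i, ∀ l : q.primeFactors, (((e i).1 : ℕ) : ZMod l) = (i l).1 := by
  classical
  have hq0 : 0 < q := Nat.pos_of_ne_zero hq.ne_zero
  have hprod : ∏ l ∈ q.primeFactors, l = q := Nat.prod_primeFactors_of_squarefree hq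
  have hmem : ∀ v, v ∈ S q A ↔ v < q ∧ ∀ l ∈ q.primeFactors, (v : ZMod l) ∈ A l := by
    intro v
    unfold S
    rw [mem_filter, mem_range]
  -- the map from the set to the product
  obtain ⟨f, hf⟩ : ∃ f : {v // v ∈ S q A} → (∀ l : q.primeFactors, {x // x ∈ A l}),
      ∀ v l, (f v l).1 = ((v.1 : ℕ) : ZMod l) :=
    ⟨fun v l => ⟨((v.1 : ℕ) : ZMod l), ((hmem v.1).1 v.2).2 l l.2⟩, fun _ _ => rfl⟩
  have hinj : Function.Injective f := by
    intro v w h
    apply Subtype.ext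
    have h1 : ∀ l ∈ q.primeFactors, (l : ℤ) ∣ ((v.1 : ℤ) - w.1) := by
      intro l hl
      have h2 := congrArg Subtype.val (congrFun h ⟨l, hl⟩)
      rw [hf, hf] at h2
      simp only at h2
      rw [← ZMod.intCast_zmod_eq_zero_iff_dvd]
      push_cast
      rw [h2, sub_self]
    have h3 : (q : ℤ) ∣ ((v.1 : ℤ) - w.1) := by
      rw [Int.natCast_dvd]
      have h4 : ∏ l ∈ q.primeFactors, l ∣ ((v.1 : ℤ) - w.1).natAbs := by
        apply Finset.prod_primes_dvd
        · intro l hl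
          exact (Nat.prime_of_mem_primeFactors hl).prime
        · intro l hl
          exact Int.natCast_dvd.1 (h1 l hl)
      rwa [hprod] at h4
    have hv := ((hmem v.1).1 v.2).1
    have hw := ((hmem w.1).1 w.2).1
    obtain ⟨t, ht⟩ := h3
    have h5 : t = 0 := by
      by_contra hne
      have h6 : (1 : ℤ) ≤ |t| := Int.one_le_abs hne
      have h7 : |(v.1 : ℤ) - w.1| = q * |t| := by rw [ht, abs_mul, abs_of_nonneg (Int.natCast_nonneg q)]
      have h8 : |(v.1 : ℤ) - w.1| < q := by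
        rw [abs_lt]
        constructor <;> omega
      have h9 : (0 : ℤ) < q := by exact_mod_cast hq0
      nlinarith
    rw [h5, mul_zero] at ht
    omega
  have hsurj : Function.Surjective f := by
    intro i
    have hpp : Set.Pairwise (q.primeFactors : Set ℕ) (Function.onFun Nat.Coprime (fun l : ℕ => l)) := by
      intro a ha b hb hab
      exact (Nat.coprime_primes (Nat.prime_of_mem_primeFactors ha) (Nat.prime_of_mem_primeFactors hb)).2 hab
    have hne : ∀ l ∈ q.primeFactors, (fun l : ℕ => l) l ≠ 0 := fun l hl => (Nat.prime_of_mem_primeFactors hl).ne_zero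
    obtain ⟨a, ha⟩ : ∃ a : ℕ → ℕ, ∀ l : q.primeFactors, ((a l : ℕ) : ZMod l) = (i l).1 := by
      refine ⟨fun l => if hl : l ∈ q.primeFactors then (i ⟨l, hl⟩).1.val else 0, fun l => ?_⟩
      have : NeZero (l : ℕ) := ⟨(Nat.prime_of_mem_primeFactors l.2).ne_zero⟩
      simp only [l.2, dif_pos]
      rw [ZMod.natCast_zmod_val]
    obtain ⟨k, hk⟩ := Nat.chineseRemainderOfFinset a (fun l : ℕ => l) q.primeFactors hne hpp
    obtain ⟨v, hv⟩ : ∃ v, v = k % q := ⟨_, rfl⟩
    have hvl : ∀ l : q.primeFactors, ((v : ℕ) : ZMod l) = (i l).1 := by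
      intro l
      rw [← ha l]
      have h1 : v ≡ k [MOD l] := by
        rw [hv]
        exact (Nat.mod_modEq k q).of_dvd (Nat.dvd_of_mem_primeFactors l.2)
      exact (ZMod.natCast_eq_natCast_iff _ _ _).2 (h1.trans (hk l l.2))
    have hvS : v ∈ S q A := by
      rw [hmem]
      refine ⟨by rw [hv]; exact Nat.mod_lt _ hq0, fun l hl => ?_⟩
      rw [hvl ⟨l, hl⟩]
      exact (i ⟨l, hl⟩).2
    refine ⟨⟨v, hvS⟩, ?_⟩
    funext l
    apply Subtype.ext
    rw [hf]
    exact hvl l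
  refine ⟨(Equiv.ofBijective f ⟨hinj, hsurj⟩).symm, fun i l => ?_⟩
  rw [← hf]
  have h1 : f ((Equiv.ofBijective f ⟨hinj, hsurj⟩).symm i) = i :=
    (Equiv.ofBijective f ⟨hinj, hsurj⟩).apply_symm_apply i
  rw [h1]

/-- Plancherel -/
lemma plancherel (l : ℕ) [NeZero l] (A : Finset (ZMod l)) :
    ∑ h : ZMod l, ‖∑ x ∈ A, (ZMod.stdAddChar (h * x) : ℂ)‖ ^ 2 = l * A.card := by
  classical
  have h1 := En_char 1 l (fun x : {x // x ∈ A} => x.1)
  have h2 : En 1 (fun x : {x // x ∈ A} => x.1) = A.card := by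
    unfold En
    rw [← Fintype.card_coe A, ← Nat.card_eq_fintype_card]
    apply Nat.card_congr
    refine ⟨fun q => q.1.1 0, fun x => ⟨(fun _ => x, fun _ => x), rfl⟩, fun q => ?_, fun x => rfl⟩
    obtain ⟨⟨a, b⟩, hab⟩ := q
    simp only [Fin.sum_univ_one] at hab
    apply Subtype.ext
    apply Prod.ext
    · funext j
      rw [Subsingleton.elim j 0]
    · funext j
      rw [Subsingleton.elim j 0]
      exact Subtype.ext hab
  rw [h2] at h1
  rw [h1]
  apply sum_congr rfl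
  intro h _
  rw [mul_one]
  congr 2
  exact (Finset.sum_coe_sort A (fun x => (ZMod.stdAddChar (h * x) : ℂ))).symm

/-- the Fourier coefficients in terms of additive characters -/
lemma flat_of {l : ℕ} [NeZero l] (δ : ℝ) (A : Finset (ZMod l))
    (h : ∀ h : ZMod l, h ≠ 0 → ‖∑ x ∈ A, (ZMod.stdAddChar (h * x) : ℂ)‖ ≤ δ * A.card) :
    Flat l δ (fun x : {x // x ∈ A} => x.1) := by
  classical
  intro k hk
  have h1 := h (k : ZMod l) (by rwa [Ne, ZMod.intCast_zmod_eq_zero_iff_dvd])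
  rw [Fintype.card_coe]
  refine le_trans (le_of_eq ?_) h1
  rw [← Finset.sum_coe_sort A (fun x => (ZMod.stdAddChar ((k : ZMod l) * x) : ℂ))]
  congr 1
  apply sum_congr rfl
  intro x _
  have e1 : (k : ZMod l) * x.1 = ((k * (x.1.val : ℕ) : ℤ) : ZMod l) := by
    push_cast
    rw [ZMod.natCast_zmod_val]
  rw [e1, ZMod.stdAddChar_coe]
  congr 1
  push_cast
  ring

/-- the cosets of the subgroups -/
lemma flat_coset (l : ℕ) [Fact l.Prime] (H : Subgroup (ZMod l)ˣ) (c : (ZMod l)ˣ) (A : Finset (ZMod l))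
    (hA : ∀ x, x ∈ A ↔ ∃ u ∈ H, x = (c * u : (ZMod l)ˣ)) (δ : ℝ) (hδ : √(l : ℝ) ≤ δ * A.card) :
    Flat l δ (fun x : {x // x ∈ A} => x.1) := by
  classical
  apply flat_of
  intro h hh
  refine le_trans ?_ hδ
  have hl0 : (0 : ℝ) < l := by exact_mod_cast (Fact.out : l.Prime).pos
  -- the coefficient is invariant under the subgroup
  have hinv : ∀ u ∈ H, ∑ x ∈ A, (ZMod.stdAddChar ((h * (u : ZMod l)) * x) : ℂ) = ∑ x ∈ A, (ZMod.stdAddChar (h * x) : ℂ) := by
    intro u hu
    refine sum_bij (fun x _ => (u : ZMod l) * x) ?_ ?_ ?_ ?_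
    · intro x hx
      obtain ⟨w, hw, rfl⟩ := (hA x).1 hx
      refine (hA _).2 ⟨u * w, H.mul_mem hu hw, ?_⟩
      push_cast
      ring
    · intro x _ y _ hxy
      exact (Units.mul_right_inj u).1 hxy
    · intro x hx
      obtain ⟨w, hw, rfl⟩ := (hA x).1 hx
      refine ⟨((c * (u⁻¹ * w) : (ZMod l)ˣ) : ZMod l), (hA _).2 ⟨u⁻¹ * w, H.mul_mem (H.inv_mem hu) hw, rfl⟩, ?_⟩
      rw [← Units.val_mul]
      congr 1
      rw [mul_left_comm, mul_inv_cancel_left]
    · intro x _
      rw [mul_assoc]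
  have hcard : ∀ x ∈ A, x ≠ 0 := by
    intro x hx
    obtain ⟨w, -, rfl⟩ := (hA x).1 hx
    exact Units.ne_zero _
  -- the frequencies `h c⁻¹ x`, `x ∈ A`
  obtain ⟨F, hF⟩ : ∃ F : ZMod l → ℝ, F = fun k => ‖∑ x ∈ A, (ZMod.stdAddChar (k * x) : ℂ)‖ ^ 2 := ⟨_, rfl⟩
  have hF0 : ∀ k, 0 ≤ F k := fun k => by rw [hF]; positivity
  have hle : ∑ k ∈ A.image (fun x => h * (((c⁻¹ : (ZMod l)ˣ) : ZMod l) * x)), F k ≤ l * A.card := by
    rw [← plancherel l A]
    have : ∑ k ∈ A.image (fun x => h * (((c⁻¹ : (ZMod l)ˣ) : ZMod l) * x)), F k ≤ ∑ k, F k :=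
      sum_le_sum_of_subset_of_nonneg (subset_univ _) fun k _ _ => hF0 k
    refine this.trans (le_of_eq ?_)
    rw [hF]
  rw [sum_image] at hle
  swap
  · intro x _ y _ hxy
    exact (Units.mul_right_inj c⁻¹).1 (mul_left_cancel₀ hh hxy)
  have hconst : ∀ x ∈ A, F (h * (((c⁻¹ : (ZMod l)ˣ) : ZMod l) * x)) = F h := by
    intro x hx
    obtain ⟨w, hw, rfl⟩ := (hA x).1 hx
    have e1 : ((c⁻¹ : (ZMod l)ˣ) : ZMod l) * ((c * w : (ZMod l)ˣ) : ZMod l) = (w : ZMod l) := by
      rw [← Units.val_mul, inv_mul_cancel_left]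
    rw [e1, hF]
    simp only
    rw [hinv w hw]
  rw [sum_congr rfl hconst, sum_const, nsmul_eq_mul] at hle
  rcases A.eq_empty_or_nonempty with rfl | hne
  · simp
  have hA0 : (0 : ℝ) < A.card := by exact_mod_cast hne.card_pos
  have hFl : F h ≤ l := by
    rw [mul_comm] at hle
    exact le_of_mul_le_mul_right hle hA0
  rw [hF] at hFl
  exact Real.le_sqrt_of_sq_le hFl

/-- the sets which omit few residues -/
lemma flat_omit (l : ℕ) [NeZero l] (A : Finset (ZMod l)) (δ : ℝ)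
    (hδ : (((univ \ A : Finset (ZMod l))).card : ℝ) ≤ δ * A.card) :
    Flat l δ (fun x : {x // x ∈ A} => x.1) := by
  classical
  apply flat_of
  intro h hh
  refine le_trans ?_ hδ
  have h1 : ∑ x : ZMod l, (ZMod.stdAddChar (h * x) : ℂ) = 0 := by
    have := sum_char l h
    rw [if_neg hh] at this
    rw [← this]
    exact sum_congr rfl fun x _ => by rw [mul_comm]
  have h2 := Finset.sum_sdiff (f := fun x => (ZMod.stdAddChar (h * x) : ℂ)) (subset_univ A)
  rw [h1] at h2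
  have h3 : ∑ x ∈ A, (ZMod.stdAddChar (h * x) : ℂ) = -∑ x ∈ univ \ A, (ZMod.stdAddChar (h * x) : ℂ) :=
    eq_neg_of_add_eq_zero_right h2
  rw [h3, norm_neg]
  refine (norm_sum_le _ _).trans ?_
  simp

end Pool.Agent.T9h51.LR
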