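import Pool.Agent.T9h51.LR.QR
import Pool.Agent.TH935.TF9

/-!
# Systems of linear polynomials whose constant terms are close to members of families given by local conditions
-/

set_option autoImplicit false

namespace Pool.Agent.T9h51.LR

open Finset Filter Topology
open Pool.Agent.TH935.TF (HW consA consB om Gz Fq cn Adm Dist fam_sys sys_lam transferP)

theorem engine (k h A B C D U : ℕ) (hk : 1 ≤ k) (ε : ℝ) (hε : 0 < ε) :
    ∃ N₀ : ℕ, ∀ N : ℕ, N₀ ≤ N → ∀ (ι : Fin k → Type) [∀ i, Fintype (ι i)] (v : ∀ i, ι i → ℤ),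
      (∀ i j, |v i j| ≤ B * N) →
      (∀ i, (En h (v i) : ℝ) * N ≤ Real.log N ^ C * (Fintype.card (ι i) : ℝ) ^ (2 * h)) →
      ∀ T : Finset (∀ i, ι i), (∀ q ∈ T, ¬ HW consA consB ε A B D N (fun i => v i (q i))) →
      (T.card : ℝ) ≤ (∏ i, (Fintype.card (ι i) : ℝ)) / Real.log N ^ U :=
  transferP h B C U (fun N β => HW consA consB ε A B D N β) (fam_sys (sys_lam k hk) hk h A B C D U ε hε)

lemma En_shift (h : ℕ) {ι : Type} (v : ι → ℤ) (s : ℤ) : En h (fun i => v i + s) = En h v := by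
  unfold En
  congr 1
  simp only [sum_add_distrib, add_left_inj]

/-- the same for all the vectors close to the members -/
theorem near (k h A B C D W U : ℕ) (hk : 1 ≤ k) (ε : ℝ) (hε : 0 < ε) :
    ∃ N₀ : ℕ, ∀ N : ℕ, N₀ ≤ N → ∀ (ι : Fin k → Type) [∀ i, Fintype (ι i)] (v : ∀ i, ι i → ℤ),
      (∀ i j, |v i j| ≤ B * N) →
      (∀ i, (En h (v i) : ℝ) * N ≤ Real.log N ^ C * (Fintype.card (ι i) : ℝ) ^ (2 * h)) →
      ∀ T : Finset (∀ i, ι i), (∀ q ∈ T, ∃ β : Fin k → ℤ, (∀ i, |((β i - v i (q i) : ℤ) : ℝ)| ≤ Real.log N ^ W) ∧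
        ¬ HW consA consB ε A (B + 1) D N β) →
      (T.card : ℝ) ≤ (∏ i, (Fintype.card (ι i) : ℝ)) / Real.log N ^ U := by
  classical
  obtain ⟨n0, h0⟩ := engine k h A (B + 1) C D (U + (W + 1) * k) hk ε hε
  obtain ⟨n1, h1⟩ := Pool.Agent.H373R2.T7.ev_L' 3
  obtain ⟨n2, h2⟩ := Pool.Agent.H373R2.T7.ev_log' W 1
  refine ⟨n0 + n1 + n2 + 3, fun N hN ι _ v hv hE T hT => ?_⟩
  have hL := h1 N (by omega)
  have hW := h2 N (by omega)
  have hN3 : (3 : ℝ) ≤ N := by exact_mod_cast (by omega : 3 ≤ N)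
  have c0 := h0 N (by omega)
  obtain ⟨L, hLd⟩ : ∃ L, L = Real.log (N : ℝ) := ⟨_, rfl⟩
  rw [← hLd] at hL hW hE hT c0 ⊢
  rw [one_mul] at hW
  have hL0 : 0 < L := by linarith
  obtain ⟨Q, hQ⟩ : ∃ Q, Q = ⌊L ^ W⌋₊ := ⟨_, rfl⟩
  have hQ1 : (Q : ℝ) ≤ L ^ W := by rw [hQ]; exact Nat.floor_le (by positivity)
  have hsN : √(N : ℝ) ≤ N := by
    rw [Real.sqrt_le_left (by linarith)]
    nlinarith
  have hQN : Q ≤ N := by exact_mod_cast hQ1.trans (hW.trans hsN)
  have key : ∀ t : Fin k → ℤ, (∀ i, |t i| ≤ Q) →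
      ((T.filter (fun q => ¬ HW consA consB ε A (B + 1) D N (fun i => v i (q i) + t i))).card : ℝ) ≤
        (∏ i, (Fintype.card (ι i) : ℝ)) / L ^ (U + (W + 1) * k) := by
    intro t ht
    refine c0 ι (fun i j => v i j + t i) (fun i j => ?_) (fun i => by rw [En_shift]; exact hE i) _ fun q hq => (mem_filter.1 hq).2
    have h3 := hv i j
    have h4 : (Q : ℤ) ≤ N := by exact_mod_cast hQN
    have h5 := abs_add_le (v i j) (t i)
    have h6 := ht i
    push_cast
    linarith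
  have hsub : T ⊆ (Fintype.piFinset (fun _ : Fin k => Icc (-(Q : ℤ)) Q)).biUnion
      (fun t => T.filter (fun q => ¬ HW consA consB ε A (B + 1) D N (fun i => v i (q i) + t i))) := by
    intro q hq
    obtain ⟨β, m1, m2⟩ := hT q hq
    rw [mem_biUnion]
    refine ⟨fun i => β i - v i (q i), ?_, ?_⟩
    · rw [Fintype.mem_piFinset]
      intro i
      rw [mem_Icc, ← abs_le]
      have h5 : (((|β i - v i (q i)|).toNat : ℕ) : ℝ) ≤ L ^ W := by
        refine le_trans (le_of_eq ?_) (m1 i)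
        have h6 : (((|β i - v i (q i)|).toNat : ℕ) : ℤ) = |β i - v i (q i)| := Int.toNat_of_nonneg (abs_nonneg _)
        have h7 := congrArg (Int.cast (R := ℝ)) h6
        rw [Int.cast_natCast] at h7
        rw [h7, Int.cast_abs]
      have h6 : (|β i - v i (q i)|).toNat ≤ Q := by rw [hQ]; exact Nat.le_floor h5
      omega
    · rw [mem_filter]
      refine ⟨hq, ?_⟩
      have e : (fun i => v i (q i) + (β i - v i (q i))) = β := by
        funext i
        ring
      rw [e]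
      exact m2
  have hc1 : (T.card : ℝ) ≤ ∑ t ∈ Fintype.piFinset (fun _ : Fin k => Icc (-(Q : ℤ)) Q),
      ((∏ i, (Fintype.card (ι i) : ℝ)) / L ^ (U + (W + 1) * k) : ℝ) := by
    have h7 := (card_le_card hsub).trans card_biUnion_le
    have h8 : (T.card : ℝ) ≤ ∑ t ∈ Fintype.piFinset (fun _ : Fin k => Icc (-(Q : ℤ)) Q),
        ((T.filter (fun q => ¬ HW consA consB ε A (B + 1) D N (fun i => v i (q i) + t i))).card : ℝ) := by
      exact_mod_cast h7
    refine h8.trans (sum_le_sum fun t ht => ?_)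
    rw [Fintype.mem_piFinset] at ht
    exact key t fun i => abs_le.2 (mem_Icc.1 (ht i))
  refine hc1.trans ?_
  rw [sum_const, nsmul_eq_mul, Fintype.card_piFinset_const]
  have hcard : ((Icc (-(Q : ℤ)) Q).card : ℝ) ≤ L ^ (W + 1) := by
    rw [Int.card_Icc]
    have h9 : (((Q : ℤ) + 1 - -(Q : ℤ)).toNat : ℝ) = 2 * Q + 1 := by
      have : ((Q : ℤ) + 1 - -(Q : ℤ)).toNat = 2 * Q + 1 := by omega
      rw [this]
      push_cast
      ring
    rw [h9, pow_succ]
    have h10 : (1 : ℝ) ≤ L ^ W := one_le_pow₀ (by linarith)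
    nlinarith
  have hι : (0 : ℝ) ≤ ∏ i, (Fintype.card (ι i) : ℝ) := prod_nonneg fun i _ => Nat.cast_nonneg _
  have hcard2 : (((Icc (-(Q : ℤ)) Q).card ^ k : ℕ) : ℝ) ≤ L ^ ((W + 1) * k) := by
    push_cast
    rw [pow_mul]
    exact pow_le_pow_left₀ (Nat.cast_nonneg _) hcard k
  calc (((Icc (-(Q : ℤ)) Q).card ^ k : ℕ) : ℝ) * ((∏ i, (Fintype.card (ι i) : ℝ)) / L ^ (U + (W + 1) * k))
      ≤ L ^ ((W + 1) * k) * ((∏ i, (Fintype.card (ι i) : ℝ)) / L ^ (U + (W + 1) * k)) :=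
        mul_le_mul_of_nonneg_right hcard2 (by positivity)
    _ = (∏ i, (Fintype.card (ι i) : ℝ)) / L ^ U := by
        rw [pow_add]
        field_simp

/-- logarithms of numbers of nearly the same size -/
lemma log_ratio (m D B : ℕ) (δ : ℝ) (hδ : 0 < δ) : ∃ M₀ : ℕ, ∀ M : ℕ, M₀ ≤ M → ∀ X : ℕ,
    (M : ℝ) / Real.log M ^ D ≤ X → X ≤ B * M → |(Real.log X / Real.log M) ^ m - 1| ≤ δ := by
  have hcont : ContinuousAt (fun x : ℝ => x ^ m) 1 := (continuous_pow m).continuousAt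
  rw [Metric.continuousAt_iff] at hcont
  obtain ⟨δ', hδ', h1⟩ := hcont δ hδ
  have e1 : Tendsto (fun M : ℕ => Real.log M) atTop atTop := Real.tendsto_log_atTop.comp tendsto_natCast_atTop_atTop
  have e2 : Tendsto (fun x : ℝ => Real.log x / x) atTop (𝓝 0) := by
    have := Real.isLittleO_log_id_atTop.tendsto_div_nhds_zero
    exact this
  have e3 : Tendsto (fun M : ℕ => Real.log (Real.log M) / Real.log M) atTop (𝓝 0) := e2.comp e1
  have e4 : ∀ᶠ M : ℕ in atTop, Real.log (Real.log M) / Real.log M < δ' / (2 * (D + 1)) :=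
    e3.eventually_lt_const (by positivity)
  have e5 : ∀ᶠ M : ℕ in atTop, max 1 (2 * (Real.log (B + 1) + 1) / δ') ≤ Real.log M := e1.eventually_ge_atTop _
  obtain ⟨M₀, h2⟩ := eventually_atTop.1 (e4.and (e5.and (eventually_ge_atTop 2)))
  refine ⟨M₀, fun M hM X hX1 hX2 => ?_⟩
  obtain ⟨a1, a2, a3⟩ := h2 M hM
  have hM0 : (0 : ℝ) < M := by exact_mod_cast (by omega : 0 < M)
  obtain ⟨L, hL⟩ : ∃ L, L = Real.log (M : ℝ) := ⟨_, rfl⟩
  rw [← hL] at a1 a2 hX1 ⊢
  have hL1 : 1 ≤ L := (le_max_left _ _).trans a2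
  have hL0 : 0 < L := by linarith
  have hX0 : (0 : ℝ) < X := lt_of_lt_of_le (by positivity) hX1
  have hlow : L - D * Real.log L ≤ Real.log X := by
    have h3 : Real.log ((M : ℝ) / L ^ D) ≤ Real.log X := Real.log_le_log (by positivity) hX1
    rw [Real.log_div hM0.ne' (by positivity), Real.log_pow, ← hL] at h3
    exact h3
  have hup : Real.log X ≤ Real.log (B + 1) + L := by
    have h3 : (X : ℝ) ≤ (B + 1) * M := by
      have h4 : (X : ℝ) ≤ B * M := by exact_mod_cast hX2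
      linarith
    have h4 := Real.log_le_log hX0 h3
    rw [Real.log_mul (by positivity) hM0.ne', ← hL] at h4
    exact h4
  have h5 : dist (Real.log X / L) 1 < δ' := by
    rw [Real.dist_eq, abs_lt]
    have hDD : (0 : ℝ) < 2 * (D + 1) := by positivity
    have hll : 0 ≤ Real.log L := Real.log_nonneg hL1
    rw [div_lt_iff₀ hL0] at a1
    have b1 : (2 * (D + 1)) * Real.log L < δ' * L := by
      have := mul_lt_mul_of_pos_left a1 hDD
      calc (2 * ((D : ℝ) + 1)) * Real.log L < (2 * (D + 1)) * (δ' / (2 * (D + 1)) * L) := this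
        _ = δ' * L := by field_simp
    have b2 : 2 * (Real.log (B + 1) + 1) ≤ δ' * L := by
      have := (le_max_right _ _).trans a2
      rw [div_le_iff₀ hδ'] at this
      linarith
    have b3 : (0 : ℝ) ≤ Real.log ((B : ℝ) + 1) := Real.log_nonneg (by
      have : (0 : ℝ) ≤ B := Nat.cast_nonneg _
      linarith)
    constructor
    · rw [lt_sub_iff_add_lt, lt_div_iff₀ hL0]
      nlinarith
    · rw [sub_lt_iff_lt_add, div_lt_iff₀ hL0]
      nlinarith
  have h6 := h1 h5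
  rw [Real.dist_eq, one_pow] at h6
  exact h6.le

end Pool.Agent.T9h51.LR
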